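import Pool.Agent.Helper86.YV.Defs
import Pool.Agent.Helper19.EX.Lower

/-!
# YV: exotic relations and good tuples
-/

set_option autoImplicit false

open Polynomial

namespace Pool.Agent.Helper19.YV

open Pool.Agent.Helper84.AA
open Pool.Agent.Helper19.AAR (splitF)
open Pool.Agent.Helper86.YV (GoodF)
open Pool.Agent.Helper19.EX (Exotic)

/-- The roots of an irreducible polynomial of degree at least `2` are not rational. -/
theorem not_le_one {P : ℤ[X]} (hm : P.Monic) (hirr : Irreducible P) (hd : 2 ≤ P.natDegree) :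
    ¬ splitF P ≤ splitF 1 := by
  intro hle
  have hPC : (P.map (Int.castRingHom ℂ)).natDegree ≠ 0 := by
    rw [hm.natDegree_map]
    omega
  obtain ⟨z, hz⟩ := IsAlgClosed.exists_root (P.map (Int.castRingHom ℂ)) (by
    intro h
    exact hPC (natDegree_eq_of_degree_eq_some h))
  have hz' : aeval z P = 0 := by
    rw [IsRoot.def, eval_map] at hz
    rw [aeval_def]
    exact hz
  have h1 : z ∈ splitF P := IntermediateField.subset_adjoin ℚ _ hz'
  have h2 : z ∈ splitF 1 := hle h1
  have h3 : splitF (1 : ℤ[X]) = ⊥ := by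
    have : {z : ℂ | aeval z (1 : ℤ[X]) = 0} = ∅ := by
      ext w
      simp
    rw [splitF, this, IntermediateField.adjoin_empty]
  rw [h3, IntermediateField.mem_bot] at h2
  obtain ⟨r, hr⟩ := h2
  have hirrQ : Irreducible (P.map (Int.castRingHom ℚ)) :=
    (hm.irreducible_iff_irreducible_map_fraction_map (K := ℚ)).1 hirr
  have hroot : IsRoot (P.map (Int.castRingHom ℚ)) r := by
    have h4 : aeval z P = algebraMap ℚ ℂ (eval r (P.map (Int.castRingHom ℚ))) := by
      rw [← hr, eval_map, aeval_def, hom_eval₂]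
      congr 1
    rw [hz'] at h4
    have h5 : algebraMap ℚ ℂ (eval r (P.map (Int.castRingHom ℚ))) = algebraMap ℚ ℂ 0 := by
      rw [← h4, map_zero]
    exact (algebraMap ℚ ℂ).injective h5
  have h6 := degree_eq_one_of_irreducible_of_root hirrQ hroot
  have h7 : (P.map (Int.castRingHom ℚ)).natDegree = 1 := natDegree_eq_of_degree_eq_some h6
  rw [hm.natDegree_map] at h7
  omega

theorem not_goodF_of_exotic {q k : ℕ} {h : Fin k → ℤ[X]} {i : Fin k}
    (hm : (h i).Monic) (hi : Exotic q (h i)) (hd : 1 ≤ (h i).natDegree) : ¬ GoodF q h := by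
  classical
  intro hg
  obtain ⟨n, h1, z, hz, hne⟩ := hi
  refine hne ?_
  have h2 := hg.2 1 one_ne_zero (fun j w => if j = i then n w else 0) 1 one_ne_zero
  have h3 : (∏ j, ∏ w ∈ ((frob q (h j)).map (Int.castRingHom ℂ)).roots.toFinset,
      w ^ (if j = i then n w else 0)) = 1 := by
    rw [Finset.prod_eq_single i]
    · simpa using h1
    · intro j _ hj
      refine Finset.prod_eq_one fun w _ => ?_
      rw [if_neg hj, zpow_zero]
    · intro h'; exact absurd (Finset.mem_univ i) h'
  rw [h3] at h2
  have hfm := Pool.Agent.Helper19.Sign.weil_monic (q : ℤ) (h i) hm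
  have h4 := h2 (by rw [one_pow]; exact one_mem _) i (not_le_one hfm.1 (hg.1 i) (by
    have h5 : (frob q (h i)).natDegree = 2 * (h i).natDegree := hfm.2
    omega)) z hz
  simpa using h4

end Pool.Agent.Helper19.YV
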