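import Pool.Agent.Helper19.XU.Tuples
import Pool.Agent.Helper19.AAE.FineSet
import Pool.Agent.Helper84.XV.V1
import Pool.Agent.Helper86.XV.V2
import Pool.Agent.Helper2.XV.V3
import Pool.Agent.Helper8.XV.V4
import Pool.Agent.Helper94.XV.V5

/-!
# YV: almost all tuples, for any property which follows from the criterion with one prime
-/

set_option autoImplicit false

open Polynomial

namespace Pool.Agent.Helper19.YV

open Pool.Agent.Helper84.AA
open Pool.Agent.Helper86.XE (NiceO BigW)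
open Pool.Agent.Helper19.AAT (FineAt)
open Pool.Agent.Helper19.AAE (exists_trim fine_count_set)
open Pool.Agent.Helper86.XU (OneBigU one_dimU)
open Pool.Agent.Helper84.XV (union_count)
open Pool.Agent.Helper86.XV (union_tuples_of)
open Pool.Agent.Helper2.XV (single_tuples)
open Pool.Agent.Helper8.XV (asymp)
open Pool.Agent.Helper94.XV (absorb)

/-- What follows from one prime for each entry. -/
def Crit (Gd : (q k : ℕ) → (Fin k → ℤ[X]) → Prop) : Prop :=
  ∀ (q k : ℕ), 1 ≤ q → ∀ h : Fin k → ℤ[X], (∀ i, (h i).Monic) → (∀ i, 2 ≤ (h i).natDegree) →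
    (∀ i, Irreducible (h i)) → (∀ i, ∃ l, NiceO q (h i) l ∧ ∀ j, j ≠ i → FineAt q (h j) l) →
    Gd q k h

theorem almost_auxY {Gd : (q k : ℕ) → (Fin k → ℤ[X]) → Prop} (hGd : Crit Gd) {d₀ : ℝ} (h0 : 0 < d₀) (h1 : d₀ ≤ 1 / 1000) (G₀ : ℕ) :
    ∃ G : ℕ, ∀ q : ℕ, 16 ≤ q → OneBigU q (d₀ * Real.log q) G₀ →
      ∀ p : ℕ, p.Prime → ∀ (k m : ℕ), G ≤ m → ∀ β : ℝ, 1 ≤ β → β ≤ (m : ℝ) ^ (4 / 5 : ℝ) →
      (k : ℝ) ≤ (m : ℝ) ^ β →
      ∀ g : Fin k → ℕ, (∀ i, m ≤ g i ∧ (g i : ℝ) ≤ (m : ℝ) ^ β) →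
      ∀ S : Fin k → Set ℤ[X], (∀ i, {h ∈ traceSet q (g i) | ¬ (p : ℤ) ∣ h.coeff 0} ⊆ S i ∧
        S i ⊆ traceSet q (g i)) →
      (({h : Fin k → ℤ[X] | (∀ i, h i ∈ S i) ∧ ¬ Gd q k h}.ncard : ℕ) : ℝ) ≤
        13 * (k : ℝ) * Real.exp (-(d₀ * Real.log q * m / (10 * β))) *
        (({h : Fin k → ℤ[X] | ∀ i, h i ∈ S i}.ncard : ℕ) : ℝ) := by
  classical
  obtain ⟨G, hG16, hG''⟩ := one_dimU h0 h1 G₀
  obtain ⟨G₁, hG₁, hG₁'⟩ := asymp h0
  refine ⟨max G G₁, fun q hq hO p hp k m hmm β hβ1 hβ2 hkβ g hgm S hS => ?_⟩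
  have hG' := hG'' q hq hO
  have hqR : (16 : ℝ) ≤ q := by exact_mod_cast hq
  have hlog : 2 ≤ Real.log q := by
    have e1 : Real.log 16 = 4 * Real.log 2 := by
      rw [show (16 : ℝ) = 2 ^ 4 by norm_num, Real.log_pow]
      push_cast
      ring
    have e2 : Real.log 16 ≤ Real.log q := Real.log_le_log (by norm_num) hqR
    have e3 := Real.log_two_gt_d9
    linarith
  have hlog0 : 0 < Real.log q := by linarith
  have hk00 : (0 : ℝ) ≤ (k : ℝ) := Nat.cast_nonneg _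
  set δ : ℝ := d₀ * Real.log q with hδd
  have hδ0 : 0 < δ := mul_pos h0 hlog0
  have hδd2 : 2 * d₀ ≤ δ := by nlinarith
  have hm : G ≤ m := (le_max_left _ _).trans hmm
  have hm1' : G₁ ≤ m := (le_max_right _ _).trans hmm
  have hm2 : 10 ^ 10 ≤ m := hG₁.trans hm1'
  have hm16 : 16 ≤ m := hG16.trans hm
  have hmR : (16 : ℝ) ≤ m := by exact_mod_cast hm16
  have hm0 : (0 : ℝ) < m := by linarith
  have hm1 : (1 : ℝ) ≤ m := by linarith
  have hβ0 : 0 < β := by linarith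
  -- the parameters
  set F : ℕ := ⌊(m : ℝ) ^ β⌋₊ with hF
  set V : ℕ := 6 * ((k + 1) * (F + 1)) with hV
  set W : ℕ := V ^ 4 with hW
  set K : ℝ := 10 * β with hK
  have hK1 : 1 ≤ K := by rw [hK]; linarith
  set Y : ℝ := Real.exp (δ * m) with hYd
  set Z : ℝ := Real.exp (-(2 * (δ * m))) with hZd
  set A : ℝ := 6 * ((F : ℝ) + 1) with hAd
  have hA0 : 0 ≤ A := by positivity
  have hZ0 : 0 ≤ Z := (Real.exp_pos _).le
  have hZ1 : Z ≤ 1 := by
    rw [hZd]
    exact Real.exp_le_one_iff.2 (by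
      have : 0 ≤ δ * m := by positivity
      linarith)
  have hY1 : 1 < Y := by
    rw [hYd]
    exact Real.one_lt_exp_iff.2 (by positivity)
  have hmβ : (m : ℝ) ≤ (m : ℝ) ^ β := by
    calc (m : ℝ) = (m : ℝ) ^ (1 : ℝ) := (Real.rpow_one _).symm
      _ ≤ (m : ℝ) ^ β := Real.rpow_le_rpow_of_exponent_le hm1 hβ1
  have hFle : (F : ℝ) ≤ (m : ℝ) ^ β := Nat.floor_le (by positivity)
  have hmF : m ≤ F := by
    rw [hF]
    exact Nat.le_floor hmβ
  have hg : ∀ i, G ≤ g i := fun i => le_trans hm (hgm i).1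
  have hgF : ∀ i, g i ≤ F := fun i => by
    rw [hF]
    exact Nat.le_floor (hgm i).2
  have hFV : F + 1 ≤ V := by
    rw [hV]
    nlinarith [Nat.zero_le (k * (F + 1))]
  have hVW : V ≤ W := by
    rw [hW]
    exact Nat.le_self_pow (by norm_num) _
  have hgW : ∀ i, g i < W := fun i => by
    have h2 := hgF i
    omega
  have hVR : (V : ℝ) ≤ 24 * (m : ℝ) ^ (2 * β) := by
    have e1 : (m : ℝ) ^ (2 * β) = (m : ℝ) ^ β * (m : ℝ) ^ β := by
      rw [← Real.rpow_add hm0]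
      congr 1
      ring
    have e2 : (V : ℝ) = 6 * (((k : ℝ) + 1) * ((F : ℝ) + 1)) := by
      rw [hV]
      push_cast
      rfl
    have e3 : ((k : ℝ) + 1) * ((F : ℝ) + 1) ≤ (2 * (m : ℝ) ^ β) * (2 * (m : ℝ) ^ β) :=
      mul_le_mul (by linarith) (by linarith) (by positivity) (by positivity)
    rw [e2, e1]
    nlinarith [e3]
  have hgK : ∀ i, K ≤ (g i : ℝ) ^ (9 / 10 : ℝ) := by
    intro i
    have h1 : (m : ℝ) ≤ g i := by exact_mod_cast (hgm i).1
    have h8 : (10 : ℝ) ≤ (m : ℝ) ^ (1 / 10 : ℝ) := by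
      have e1 : ((10 : ℝ) ^ (10 : ℕ)) ^ (1 / 10 : ℝ) = 10 := by
        rw [← Real.rpow_natCast, ← Real.rpow_mul (by norm_num)]
        norm_num
      refine le_trans e1.ge ?_
      refine Real.rpow_le_rpow (by positivity) ?_ (by norm_num)
      exact_mod_cast hm2
    calc K = 10 * β := hK
      _ ≤ (m : ℝ) ^ (1 / 10 : ℝ) * (m : ℝ) ^ (4 / 5 : ℝ) :=
          mul_le_mul h8 hβ2 hβ0.le (by positivity)
      _ = (m : ℝ) ^ (9 / 10 : ℝ) := by
          rw [← Real.rpow_add hm0]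
          norm_num
      _ ≤ (g i : ℝ) ^ (9 / 10 : ℝ) := Real.rpow_le_rpow hm0.le h1 (by norm_num)
  have hWg : ∀ i, (W : ℝ) ≤ (g i : ℝ) ^ K := by
    intro i
    have h1 : (m : ℝ) ≤ g i := by exact_mod_cast (hgm i).1
    have h16 : (331776 : ℝ) ≤ (m : ℝ) ^ (2 * β) := by
      have e0 : (10 : ℝ) ^ (10 : ℕ) ≤ m := by exact_mod_cast hm2
      calc (331776 : ℝ) ≤ m := by
            refine le_trans ?_ e0
            norm_num
        _ = (m : ℝ) ^ (1 : ℝ) := (Real.rpow_one _).symm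
        _ ≤ (m : ℝ) ^ (2 * β) := Real.rpow_le_rpow_of_exponent_le hm1 (by linarith)
    have h4β : ((m : ℝ) ^ (2 * β)) ^ 4 = (m : ℝ) ^ (8 * β) := by
      rw [← Real.rpow_natCast, ← Real.rpow_mul hm0.le]
      congr 1
      push_cast
      ring
    calc (W : ℝ) = (V : ℝ) ^ 4 := by rw [hW]; push_cast; ring
      _ ≤ (24 * (m : ℝ) ^ (2 * β)) ^ 4 := pow_le_pow_left₀ (Nat.cast_nonneg _) hVR 4
      _ = 331776 * (m : ℝ) ^ (8 * β) := by rw [mul_pow, h4β]; norm_num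
      _ ≤ (m : ℝ) ^ (2 * β) * (m : ℝ) ^ (8 * β) := mul_le_mul_of_nonneg_right h16 (by positivity)
      _ = (m : ℝ) ^ K := by
          rw [← Real.rpow_add hm0, hK]
          congr 1
          ring
      _ ≤ (g i : ℝ) ^ K := Real.rpow_le_rpow hm0.le h1 (by linarith)
  set ε : ℝ := Real.exp (-(δ * m / (10 * β))) with hεd
  have hε0 : 0 < ε := Real.exp_pos _
  have hmgR : ∀ i, (m : ℝ) ≤ g i := fun i => by exact_mod_cast (hgm i).1
  have hG2 : 2 ≤ G := by omega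
  have hfin : ∀ i, (S i).Finite := fun i => (traceSet_finite q (g i)).subset (hS i).2
  let T : Fin k → Finset ℤ[X] := fun i => (hfin i).toFinset
  have hT : ∀ i h, h ∈ T i ↔ h ∈ S i := fun i h => Set.Finite.mem_toFinset _
  -- the comparison with the whole set
  have htr : ∀ i, ((traceSet q (g i)).ncard : ℝ) ≤ 3 * (T i).card := by
    intro i
    have h2 := (hG' p hp (g i) (hg i) K hK1 (hgK i) W (hgW i) (hWg i)).2.1
    have h3 : {h ∈ traceSet q (g i) | ¬ (p : ℤ) ∣ h.coeff 0}.ncard ≤ (T i).card := by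
      rw [← Set.ncard_eq_toFinset_card _ (hfin i)]
      exact Set.ncard_le_ncard (hS i).1 (hfin i)
    have h4 : (({h ∈ traceSet q (g i) | ¬ (p : ℤ) ∣ h.coeff 0}.ncard : ℕ) : ℝ) ≤ (T i).card := by
      exact_mod_cast h3
    linarith
  have hpre : ∀ i, ((preSet q (g i) (g i - 1)).ncard : ℝ) ≤ Z * (traceSet q (g i)).ncard := by
    intro i
    have h2 := (hG' p hp (g i) (hg i) K hK1 (hgK i) W (hgW i) (hWg i)).2.2
    set pr : ℝ := ((preSet q (g i) (g i - 1)).ncard : ℝ) with hprd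
    have hpr0 : 0 ≤ pr := Nat.cast_nonneg _
    have hN0 : (0 : ℝ) ≤ (traceSet q (g i)).ncard := Nat.cast_nonneg _
    have hgi0 : (0 : ℝ) ≤ g i := Nat.cast_nonneg _
    have e1 : Real.exp (δ * g i) * pr ≤ Real.exp (-(δ * g i)) * (traceSet q (g i)).ncard := by
      refine le_trans ?_ h2
      have : 0 ≤ (g i : ℝ) * (Real.exp (δ * g i) * pr) := by positivity
      nlinarith
    have e2 : pr ≤ Real.exp (-(2 * (δ * g i))) * (traceSet q (g i)).ncard := by
      have e3 : Real.exp (-(δ * g i)) * Real.exp (δ * g i) = 1 := by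
        rw [← Real.exp_add]
        simp
      have e4 : Real.exp (-(2 * (δ * g i))) = Real.exp (-(δ * g i)) * Real.exp (-(δ * g i)) := by
        rw [← Real.exp_add]
        congr 1
        ring
      calc pr = Real.exp (-(δ * g i)) * (Real.exp (δ * g i) * pr) := by
            rw [← mul_assoc, e3, one_mul]
        _ ≤ Real.exp (-(δ * g i)) * (Real.exp (-(δ * g i)) * (traceSet q (g i)).ncard) :=
            mul_le_mul_of_nonneg_left e1 (Real.exp_pos _).le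
        _ = Real.exp (-(2 * (δ * g i))) * (traceSet q (g i)).ncard := by rw [e4]; ring
    refine e2.trans (mul_le_mul_of_nonneg_right ?_ hN0)
    rw [hZd]
    refine Real.exp_le_exp.2 (neg_le_neg ?_)
    have := mul_le_mul_of_nonneg_left (hmgR i) hδ0.le
    linarith
  let BW : Fin k → ℤ[X] → Prop := fun i h => BigW q W (Real.exp (δ * g i)) h
  let B : Fin k → ℤ[X] → Prop := fun i h => ¬ (Irreducible h ∧ BW i h)
  -- the trimmed sets of primes
  have hex : ∀ i h, BW i h → ∃ L : Finset ℕ, (∀ l ∈ L, W < l ∧ NiceO q h l) ∧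
      Y ≤ ∏ l ∈ L, (l : ℝ) ∧ (W : ℝ) ^ (L.card - 1) ≤ Y := by
    rintro i h ⟨L, hL, hY⟩
    have hYg : Y ≤ ∏ l ∈ L, (l : ℝ) := by
      refine le_trans ?_ hY
      rw [hYd]
      exact Real.exp_le_exp.2 (mul_le_mul_of_nonneg_left (hmgR i) hδ0.le)
    obtain ⟨L', hL', h1, h2⟩ := exists_trim L W (fun l hl => (hL l hl).1) hY1.le hYg
    exact ⟨L', fun l hl => hL l (hL' hl), h1, h2⟩
  let ℓ : Fin k → ℤ[X] → Finset ℕ := fun i h => if hh : BW i h then (hex i h hh).choose else ∅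
  have hℓ : ∀ i h, BW i h → (∀ l ∈ ℓ i h, W < l ∧ NiceO q h l) ∧
      Y ≤ ∏ l ∈ ℓ i h, (l : ℝ) ∧ (W : ℝ) ^ ((ℓ i h).card - 1) ≤ Y := by
    intro i h hh
    have : ℓ i h = (hex i h hh).choose := dif_pos hh
    rw [this]
    exact (hex i h hh).choose_spec
  -- one bad entry
  have hB : ∀ i, (({y | y ∈ T i ∧ B i y}.ncard : ℕ) : ℝ) ≤ (12 * ε) * (T i).card := by
    intro i
    have h1 := (hG' p hp (g i) (hg i) K hK1 (hgK i) W (hgW i) (hWg i)).1
    have h2 : {y | y ∈ T i ∧ B i y} ⊆ {h ∈ traceSet q (g i) | ¬ (Irreducible h ∧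
          BigW q W (Real.exp (d₀ * Real.log q * g i)) h)} := by
      rintro y ⟨hy1, hy2⟩
      exact ⟨(hS i).2 ((hT i y).1 hy1), hy2⟩
    have h3 := Set.ncard_le_ncard h2 ((traceSet_finite q (g i)).subset fun y hy => hy.1)
    have h4 : (({y | y ∈ T i ∧ B i y}.ncard : ℕ) : ℝ) ≤ (({h ∈ traceSet q (g i) | ¬ (Irreducible h ∧
          BigW q W (Real.exp (d₀ * Real.log q * g i)) h)}.ncard : ℕ) : ℝ) := by exact_mod_cast h3
    have h5 : Real.exp (-(δ * g i / K)) ≤ ε := by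
      rw [hεd]
      refine Real.exp_le_exp.2 (neg_le_neg ?_)
      exact div_le_div_of_nonneg_right (mul_le_mul_of_nonneg_left (hmgR i) hδ0.le) (by linarith)
    have hN0 : (0 : ℝ) ≤ (traceSet q (g i)).ncard := Nat.cast_nonneg _
    calc (({y | y ∈ T i ∧ B i y}.ncard : ℕ) : ℝ)
        ≤ 4 * Real.exp (-(δ * g i / K)) * (traceSet q (g i)).ncard := h4.trans h1
      _ ≤ 4 * ε * (traceSet q (g i)).ncard :=
          mul_le_mul_of_nonneg_right (by linarith) hN0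
      _ ≤ 4 * ε * (3 * (T i).card) := mul_le_mul_of_nonneg_left (htr i) (by positivity)
      _ = (12 * ε) * (T i).card := by ring
  -- several entries which are not fine
  have hc : ∀ i, ∀ x ∈ T i, ¬ B i x → ∀ j, j ≠ i → ∀ L' ⊆ ℓ i x,
      (({y | y ∈ T j ∧ ∀ l ∈ L', ¬ FineAt q y l}.ncard : ℕ) : ℝ) ≤
        A ^ L'.card * max (1 / ∏ l ∈ L', (l : ℝ)) Z * (T j).card := by
    intro i x _ hx j _ L' hL'
    have hbw : BW i x := (not_not.1 hx).2
    obtain ⟨hL1, hL2, hL3⟩ := hℓ i x hbw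
    have hc0 : (0 : ℝ) ≤ (T j).card := Nat.cast_nonneg _
    rcases L'.eq_empty_or_nonempty with he | hne
    · subst he
      have e1 : {y | y ∈ T j ∧ ∀ l ∈ (∅ : Finset ℕ), ¬ FineAt q y l} = (T j : Set ℤ[X]) := by
        ext y
        simp
      rw [e1, Set.ncard_coe_finset]
      have e2 : (1 : ℝ) ≤ max (1 / ∏ l ∈ (∅ : Finset ℕ), (l : ℝ)) Z := by simp
      have e3 : ((T j).card : ℝ) = 1 * (T j).card := (one_mul _).symm
      rw [Finset.card_empty, pow_zero, one_mul]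
      nlinarith
    · have hpos : ∀ l ∈ L', (0 : ℝ) < l := fun l hl => by
        have := (hL1 l (hL' hl)).1
        exact_mod_cast (by omega : 0 < l)
      have hprod0 : (0 : ℝ) < ∏ l ∈ L', (l : ℝ) := Finset.prod_pos hpos
      have h1 := fine_count_set (q := q) (g := g j) (by have := hG16.trans (hg j); omega) L'
        (fun l hl => ⟨(hL1 l (hL' hl)).2.1, (hgW j).trans (hL1 l (hL' hl)).1⟩)
      have h2 : {y | y ∈ T j ∧ ∀ l ∈ L', ¬ FineAt q y l} ⊆
          {h ∈ traceSet q (g j) | ∀ l ∈ L', ¬ FineAt q h l} := by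
        rintro y ⟨hy1, hy2⟩
        exact ⟨(hS j).2 ((hT j y).1 hy1), hy2⟩
      have h3 := Set.ncard_le_ncard h2 ((traceSet_finite q (g j)).subset fun y hy => hy.1)
      have h4 : (({y | y ∈ T j ∧ ∀ l ∈ L', ¬ FineAt q y l}.ncard : ℕ) : ℝ) ≤
          (({h ∈ traceSet q (g j) | ∀ l ∈ L', ¬ FineAt q h l}.ncard : ℕ) : ℝ) := by
        exact_mod_cast h3
      set N : ℝ := ((traceSet q (g j)).ncard : ℝ) with hNd
      have hN0 : 0 ≤ N := Nat.cast_nonneg _
      set M : ℝ := max (1 / ∏ l ∈ L', (l : ℝ)) Z with hMd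
      have hM1 : 1 / ∏ l ∈ L', (l : ℝ) ≤ M := le_max_left _ _
      have hM2 : Z ≤ M := le_max_right _ _
      have hM0 : 0 ≤ M := hZ0.trans hM2
      have hcard : 1 ≤ L'.card := Finset.card_pos.2 hne
      have e5 : N / ((∏ l ∈ L', l : ℕ) : ℝ) + (preSet q (g j) (g j - 1)).ncard ≤ 2 * M * N := by
        have e6 : ((∏ l ∈ L', l : ℕ) : ℝ) = ∏ l ∈ L', (l : ℝ) := by push_cast; rfl
        rw [e6]
        have e7 : N / ∏ l ∈ L', (l : ℝ) = (1 / ∏ l ∈ L', (l : ℝ)) * N := by ring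
        rw [e7]
        have e8 := hpre j
        have e9 := mul_le_mul_of_nonneg_right hM1 hN0
        have e10 := mul_le_mul_of_nonneg_right hM2 hN0
        linarith
      have e11 : ((g j : ℝ) + 1) ^ L'.card ≤ ((F : ℝ) + 1) ^ L'.card := by
        refine pow_le_pow_left₀ (by positivity) ?_ _
        have : (g j : ℝ) ≤ F := by exact_mod_cast hgF j
        linarith
      have e12 : 6 * ((F : ℝ) + 1) ^ L'.card ≤ A ^ L'.card := by
        rw [hAd, mul_pow]
        refine mul_le_mul_of_nonneg_right ?_ (by positivity)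
        calc (6 : ℝ) = 6 ^ 1 := (pow_one _).symm
          _ ≤ 6 ^ L'.card := pow_le_pow_right₀ (by norm_num) hcard
      calc (({y | y ∈ T j ∧ ∀ l ∈ L', ¬ FineAt q y l}.ncard : ℕ) : ℝ)
          ≤ ((g j : ℝ) + 1) ^ L'.card * (N / ((∏ l ∈ L', l : ℕ) : ℝ) +
            (preSet q (g j) (g j - 1)).ncard) := h4.trans h1
        _ ≤ ((F : ℝ) + 1) ^ L'.card * (2 * M * N) :=
            mul_le_mul e11 e5 (by positivity) (by positivity)
        _ ≤ ((F : ℝ) + 1) ^ L'.card * (2 * M * (3 * (T j).card)) :=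
            mul_le_mul_of_nonneg_left (mul_le_mul_of_nonneg_left (htr j) (by positivity))
              (by positivity)
        _ = (6 * ((F : ℝ) + 1) ^ L'.card) * M * (T j).card := by ring
        _ ≤ A ^ L'.card * M * (T j).card :=
            mul_le_mul_of_nonneg_right (mul_le_mul_of_nonneg_right e12 hM0) hc0
  have hη : ∀ i, ∀ x ∈ T i, ¬ B i x →
      ((k : ℝ) * A) ^ (ℓ i x).card * max (1 / ∏ l ∈ ℓ i x, (l : ℝ)) Z ≤ ε := by
    intro i x _ hx
    have hbw : BW i x := (not_not.1 hx).2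
    obtain ⟨hL1, hL2, hL3⟩ := hℓ i x hbw
    set L := ℓ i x with hLd
    set a := L.card with ha
    have hVE : (V : ℝ) ≤ Real.exp (δ * m / 4) := by
      refine hVR.trans ((hG₁' m hm1' β hβ1 hβ2).trans (Real.exp_le_exp.2 ?_))
      have := mul_le_mul_of_nonneg_right hδd2 hm0.le
      linarith
    have hVpow : (V : ℝ) ^ (a - 1) ≤ Real.exp (δ * m / 4) := by
      refine (pow_le_pow_iff_left₀ (by positivity) (Real.exp_pos _).le (n := 4) (by norm_num)).1 ?_
      have e1 : ((V : ℝ) ^ (a - 1)) ^ 4 = (W : ℝ) ^ (a - 1) := by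
        rw [hW]
        push_cast
        rw [← pow_mul, ← pow_mul, mul_comm]
      have e2 : Real.exp (δ * m / 4) ^ 4 = Y := by
        rw [← Real.exp_nat_mul, hYd]
        congr 1
        push_cast
        ring
      rw [e1, e2]
      exact hL3
    have hkA : (k : ℝ) * A ≤ V := by
      rw [hAd, hV]
      push_cast
      have : (0 : ℝ) ≤ F := Nat.cast_nonneg _
      nlinarith
    have hV1 : (1 : ℝ) ≤ V := by
      have : 1 ≤ V := by omega
      exact_mod_cast this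
    have hpow : ((k : ℝ) * A) ^ a ≤ Real.exp (δ * m / 4) * Real.exp (δ * m / 4) := by
      calc ((k : ℝ) * A) ^ a ≤ (V : ℝ) ^ a := pow_le_pow_left₀ (by positivity) hkA _
        _ ≤ (V : ℝ) * (V : ℝ) ^ (a - 1) := by
            rcases Nat.eq_zero_or_pos a with h0 | h0
            · rw [h0]; simpa using hV1
            · rw [← pow_succ', Nat.sub_add_cancel h0]
        _ ≤ _ := mul_le_mul hVE hVpow (by positivity) (Real.exp_pos _).le
    have hmax : max (1 / ∏ l ∈ L, (l : ℝ)) Z ≤ Real.exp (-(δ * m)) := by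
      refine max_le ?_ ?_
      · rw [Real.exp_neg, ← one_div]
        exact one_div_le_one_div_of_le (Real.exp_pos _) hL2
      · rw [hZd]
        refine Real.exp_le_exp.2 (neg_le_neg ?_)
        have : 0 ≤ δ * m := by positivity
        linarith
    have hmax0 : 0 ≤ max (1 / ∏ l ∈ L, (l : ℝ)) Z := hZ0.trans (le_max_right _ _)
    calc ((k : ℝ) * A) ^ a * max (1 / ∏ l ∈ L, (l : ℝ)) Z
        ≤ (Real.exp (δ * m / 4) * Real.exp (δ * m / 4)) * Real.exp (-(δ * m)) :=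
          mul_le_mul hpow hmax hmax0 (by positivity)
      _ = Real.exp (-(δ * m / 2)) := by
          rw [← Real.exp_add, ← Real.exp_add]
          congr 1
          ring
      _ ≤ ε := by
          rw [hεd]
          refine Real.exp_le_exp.2 (neg_le_neg ?_)
          exact div_le_div_of_nonneg_left (by positivity) (by norm_num) (by linarith)
  -- the bad tuples
  let U : Fin k → Set (Fin k → ℤ[X]) := fun i => {x | (∀ j, x j ∈ T j) ∧ B i (x i)} ∪
    {x | (∀ j, x j ∈ T j) ∧ ¬ B i (x i) ∧ ∀ l ∈ ℓ i (x i), ∃ j, j ≠ i ∧ ¬ FineAt q (x j) l}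
  have hTfin : {x : Fin k → ℤ[X] | ∀ j, x j ∈ T j}.Finite := by
    refine (Finset.finite_toSet (Fintype.piFinset T)).subset fun x hx => ?_
    rw [Finset.mem_coe, Fintype.mem_piFinset]
    exact hx
  have hUfin : (⋃ i, U i).Finite := by
    refine hTfin.subset fun x hx => ?_
    rw [Set.mem_iUnion] at hx
    obtain ⟨i, hx | hx⟩ := hx
    · exact hx.1
    · exact hx.1
  have hU : ∀ i, ((U i).ncard : ℝ) ≤ 13 * ε * ∏ j, ((T j).card : ℝ) := by
    intro i
    have h1 := single_tuples T i (B i) (12 * ε) (hB i)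
    have h2 := union_tuples_of union_count T i (B i) (ℓ i) (fun l y => ¬ FineAt q y l) A Z ε hA0 hZ0 hZ1 hε0.le
      (fun x _ hx l hl => by
        have := ((hℓ i x (not_not.1 hx).2).1 l hl).1
        omega) (hc i) (hη i)
    have h3 : ((U i).ncard : ℝ) ≤
        (({x : Fin k → ℤ[X] | (∀ j, x j ∈ T j) ∧ B i (x i)}.ncard : ℕ) : ℝ) +
        (({x : Fin k → ℤ[X] | (∀ j, x j ∈ T j) ∧ ¬ B i (x i) ∧
          ∀ l ∈ ℓ i (x i), ∃ j, j ≠ i ∧ ¬ FineAt q (x j) l}.ncard : ℕ) : ℝ) := by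
      exact_mod_cast Set.ncard_union_le _ _
    linarith
  have hbad : (({h : Fin k → ℤ[X] | (∀ i, h i ∈ S i) ∧ ¬ Gd q k h}.ncard : ℕ) : ℝ) ≤
      ∑ i, ((U i).ncard : ℝ) := by
    have h1 : {h : Fin k → ℤ[X] | (∀ i, h i ∈ S i) ∧ ¬ Gd q k h} ⊆ ⋃ i, U i := by
      rintro h ⟨hh, hbad⟩
      by_contra hcon
      rw [Set.mem_iUnion, not_exists] at hcon
      apply hbad
      have hhT : ∀ i, h i ∈ T i := fun i => (hT i _).2 (hh i)
      have hc1 : ∀ i, ¬ B i (h i) := fun i hBi => hcon i (Or.inl ⟨hhT, hBi⟩)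
      have hc2 : ∀ i, ¬ ∀ l ∈ ℓ i (h i), ∃ j, j ≠ i ∧ ¬ FineAt q (h j) l := fun i hLi =>
        hcon i (Or.inr ⟨hhT, hc1 i, hLi⟩)
      have hc1' : ∀ i, Irreducible (h i) ∧ BW i (h i) := fun i => not_not.1 (hc1 i)
      have htrS : ∀ i, h i ∈ traceSet q (g i) := fun i => (hS i).2 (hh i)
      refine hGd q k (by omega) h (fun i => (htrS i).1) ?_ (fun i => (hc1' i).1) ?_
      · intro i
        rw [(htrS i).2.1]
        exact hG2.trans (hg i)
      · intro i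
        obtain ⟨hL1, _, _⟩ := hℓ i (h i) (hc1' i).2
        have h5 := hc2 i
        push Not at h5
        obtain ⟨l, hl, hl2⟩ := h5
        exact ⟨l, (hL1 l hl).2, fun j hj => by
          by_contra hf
          exact hf (hl2 j hj)⟩
    have h2 := (Set.ncard_le_ncard h1 hUfin).trans (Set.ncard_iUnion_le_of_fintype U)
    exact_mod_cast h2
  have hord : ((({h : Fin k → ℤ[X] | ∀ i, h i ∈ S i}.ncard : ℕ)) : ℝ) =
      ∏ i, ((T i).card : ℝ) := by
    have h1 : {h : Fin k → ℤ[X] | ∀ i, h i ∈ S i} = ↑(Fintype.piFinset T) := by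
      ext h
      rw [Finset.mem_coe, Fintype.mem_piFinset]
      exact forall_congr' fun i => (hT i _).symm
    rw [h1, Set.ncard_coe_finset, Fintype.card_piFinset]
    push_cast
    rfl
  rw [hord]
  calc (({h : Fin k → ℤ[X] | (∀ i, h i ∈ S i) ∧ ¬ Gd q k h}.ncard : ℕ) : ℝ)
      ≤ ∑ i, ((U i).ncard : ℝ) := hbad
    _ ≤ ∑ _i : Fin k, 13 * ε * ∏ j, ((T j).card : ℝ) := Finset.sum_le_sum fun i _ => hU i
    _ = 13 * (k : ℝ) * ε * ∏ j, ((T j).card : ℝ) := by
        rw [Finset.sum_const, Finset.card_univ, Fintype.card_fin, nsmul_eq_mul]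
        ring

/-- The share of the exceptional tuples, for all `k ≤ m ^ B`. -/
theorem almost_uniformY_of {Gd : (q k : ℕ) → (Fin k → ℤ[X]) → Prop} (hGd : Crit Gd)
    (hO : ∃ d₀ : ℝ, 0 < d₀ ∧ ∃ G : ℕ, ∀ q : ℕ, 16 ≤ q → OneBigU q (d₀ * Real.log q) G) :
    ∃ d : ℝ, 0 < d ∧ ∃ G : ℕ, ∀ q : ℕ, 16 ≤ q → ∀ p : ℕ, p.Prime →
    ∀ (k m : ℕ), G ≤ m → ∀ B : ℝ, 1 ≤ B → B ≤ (m : ℝ) ^ (4 / 5 : ℝ) → (k : ℝ) ≤ (m : ℝ) ^ B →
      ∀ g : Fin k → ℕ, (∀ i, m ≤ g i ∧ (g i : ℝ) ≤ (m : ℝ) ^ B) →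
      ∀ S : Fin k → Set ℤ[X], (∀ i, {h ∈ traceSet q (g i) | ¬ (p : ℤ) ∣ h.coeff 0} ⊆ S i ∧
        S i ⊆ traceSet q (g i)) →
      (({h : Fin k → ℤ[X] | (∀ i, h i ∈ S i) ∧ ¬ Gd q k h}.ncard : ℕ) : ℝ) ≤
        (k : ℝ) * (q : ℝ) ^ (-(d * m / B)) *
        (({h : Fin k → ℤ[X] | ∀ i, h i ∈ S i}.ncard : ℕ) : ℝ) := by
  obtain ⟨d, hd, G, hG⟩ := hO
  have hd0 : 0 < min d (1 / 1000) := lt_min hd (by norm_num)
  obtain ⟨G', h⟩ := almost_auxY hGd hd0 (min_le_right _ _) G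
  obtain ⟨G'', hG''1, hG''⟩ := absorb (d := min d (1 / 1000) / 20) (by positivity)
  refine ⟨min d (1 / 1000) / 20, by positivity, max G' G'',
    fun q hq p hp k m hm B hB1 hB2 hk g hg S hS => ?_⟩
  have hqR : (16 : ℝ) ≤ q := by exact_mod_cast hq
  have hlog0 : 0 < Real.log q := Real.log_pos (by linarith)
  have hO' : OneBigU q (min d (1 / 1000) * Real.log q) G :=
    OneBigU.mono (hG q hq) (mul_le_mul_of_nonneg_right (min_le_left _ _) hlog0.le)
  refine (h q hq hO' p hp k m ((le_max_left _ _).trans hm) B hB1 hB2 hk g hg S hS).trans ?_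
  have hB0 : 0 < B := by linarith
  have e1 : (q : ℝ) ^ (-(2 * (min d (1 / 1000) / 20) * m / B)) =
      Real.exp (-(min d (1 / 1000) * Real.log q * m / (10 * B))) := by
    rw [Real.rpow_def_of_pos (by linarith)]
    congr 1
    field_simp
    ring
  have e2 := hG'' q hq m ((le_max_right _ _).trans hm) B hB1 hB2
  rw [e1] at e2
  refine mul_le_mul_of_nonneg_right ?_ (Nat.cast_nonneg _)
  have hk0 : (0 : ℝ) ≤ k := Nat.cast_nonneg _
  calc 13 * (k : ℝ) * Real.exp (-(min d (1 / 1000) * Real.log q * m / (10 * B)))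
      = (k : ℝ) * (13 * Real.exp (-(min d (1 / 1000) * Real.log q * m / (10 * B)))) := by ring
    _ ≤ (k : ℝ) * (q : ℝ) ^ (-(min d (1 / 1000) / 20 * m / B)) :=
        mul_le_mul_of_nonneg_left e2 hk0

end Pool.Agent.Helper19.YV
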