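import Pool.Agent.Helper19.AAR.SignRel
import Pool.Agent.Helper86.YV.Good

/-!
# YV: from relations over the rational numbers to relations over number fields, optimal condition
-/

set_option autoImplicit false

open Polynomial Finset

namespace Pool.Agent.Helper19.YV

open Pool.Agent.Helper19.AAR (splitF crt)
open Pool.Agent.Helper19.Sign (qw weil weil_monic irreducible_qw InCore mem_qw qw_root_ne_zero
  traces traces_eq)
open Pool.Agent.Helper19.Disc (roots Rt mem_roots' stab_roots roots_map_eq exists_conj)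

theorem sign_rel_aux (q : ℕ) (h : ℤ[X]) (hq : 0 < q) (hm : h.Monic) (hirr : Irreducible (weil (q : ℤ) h))
    (R0 : ∀ (n : ℂ → ℤ) (N : ℕ), N ≠ 0 → (∏ z ∈ crt (weil (q : ℤ) h), z ^ n z) ^ N = 1 →
      ∀ z ∈ crt (weil (q : ℤ) h), n z = n (q / z))
    (f : ℤ[X]) (hf : f ≠ 0)
    (hKF : splitF h ≤ splitF f) (hLF : ¬ splitF (weil (q : ℤ) h) ≤ splitF f)
    (n : ℂ → ℤ) (N : ℕ) (hN : N ≠ 0)
    (hrel : (∏ z ∈ crt (weil (q : ℤ) h), z ^ n z) ^ N ∈ splitF f) :
    ∀ z ∈ crt (weil (q : ℤ) h), n z = n (q / z) := by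
  classical
  have hq0 : (q : ℤ) ≠ 0 := by omega
  have hfm : (weil (q : ℤ) h).Monic := (weil_monic (q : ℤ) h hm).1
  have h1 : Irreducible (qw (q : ℤ) h) :=
    (hfm.irreducible_iff_irreducible_map_fraction_map (K := ℚ)).1 hirr
  -- the splitting field
  set P : ℚ[X] := qw (q : ℤ) h * f.map (Int.castRingHom ℚ) with hP
  have hf0 : f.map (Int.castRingHom ℚ) ≠ 0 :=
    (Polynomial.map_ne_zero_iff (Int.castRingHom ℚ).injective_int).2 hf
  have hP0 : P ≠ 0 := mul_ne_zero h1.ne_zero hf0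
  have hsC : (P.map (algebraMap ℚ ℂ)).Splits := IsAlgClosed.splits _
  let L : IntermediateField ℚ ℂ := IntermediateField.adjoin ℚ (P.rootSet ℂ)
  have hL : P.IsSplittingField ℚ L := IntermediateField.adjoin_rootSet_isSplittingField hsC
  have : FiniteDimensional ℚ L := IsSplittingField.finiteDimensional L P
  have : NumberField L := { }
  have hnorm : Normal ℚ L := Normal.of_isSplittingField P
  have : IsGalois ℚ L := { }
  have hsP : (P.map (algebraMap ℚ L)).Splits := IsSplittingField.splits L P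
  have hsL : ((qw (q : ℤ) h).map (algebraMap ℚ L)).Splits := by
    refine Splits.of_dvd hsP ?_ (Polynomial.map_dvd _ (dvd_mul_right _ _))
    exact (Polynomial.map_ne_zero_iff (algebraMap ℚ L).injective).2 hP0
  have hmapC : (weil (q : ℤ) h).map (Int.castRingHom ℂ) =
      ((qw (q : ℤ) h).map (algebraMap ℚ L)).map (algebraMap L ℂ) := by
    rw [Polynomial.map_map, qw, Polynomial.map_map]
    congr 1
  have hroots : crt (weil (q : ℤ) h) = (roots (qw (q : ℤ) h) L).image (algebraMap L ℂ) := by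
    rw [crt, hmapC, hsL.roots_map]
    ext z
    rw [Multiset.mem_toFinset, Multiset.mem_map, Finset.mem_image]
    constructor
    · rintro ⟨b, hb, rfl⟩
      refine ⟨b, ?_, rfl⟩
      rw [mem_roots' h1.ne_zero]
      rw [mem_roots (Polynomial.map_ne_zero h1.ne_zero), IsRoot.def, eval_map_algebraMap] at hb
      exact hb
    · rintro ⟨b, hb, rfl⟩
      refine ⟨b, ?_, rfl⟩
      rw [mem_roots' h1.ne_zero] at hb
      rw [mem_roots (Polynomial.map_ne_zero h1.ne_zero), IsRoot.def, eval_map_algebraMap]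
      exact hb
  have hinj : Function.Injective (algebraMap L ℂ) := (algebraMap L ℂ).injective
  have hprod : ∀ n : ℂ → ℤ, ∏ z ∈ (roots (qw (q : ℤ) h) L).image (algebraMap L ℂ), z ^ n z =
      algebraMap L ℂ (∏ b ∈ roots (qw (q : ℤ) h) L, b ^ n (algebraMap L ℂ b)) := by
    intro n
    rw [Finset.prod_image fun a _ b _ hab => hinj hab, map_prod]
    exact Finset.prod_congr rfl fun b _ => (map_zpow₀ (algebraMap L ℂ) b _).symm
  have hψP : ∀ z : ℂ, aeval z P = 0 → ∃ y : L, algebraMap L ℂ y = z := by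
    intro z hz
    have hzL : z ∈ L := by
      apply IntermediateField.subset_adjoin
      rw [mem_rootSet]
      exact ⟨hP0, hz⟩
    exact ⟨⟨z, hzL⟩, rfl⟩
  have hint : (algebraMap ℚ ℂ).comp (Int.castRingHom ℚ) = algebraMap ℤ ℂ := Subsingleton.elim _ _
  have hψf : ∀ z : ℂ, aeval z f = 0 → ∃ y : L, algebraMap L ℂ y = z := by
    intro z hz
    refine hψP z ?_
    rw [hP, map_mul]
    refine mul_eq_zero_of_right _ ?_
    rw [aeval_def, eval₂_map, hint, ← aeval_def, hz]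
  have hmemA := Pool.Agent.Helper86.YV.field_aux2 L (algebraMap L ℂ) f hψf
  obtain ⟨H, hnor, hfixA, hfixA'⟩ := Pool.Agent.Helper86.YV.fixing_aux2 L f
  rw [hroots, hprod, ← map_pow] at hrel
  -- the action
  have hPne : qw (q : ℤ) h ≠ 0 := h1.ne_zero
  let S : Type := Rt L (qw (q : ℤ) h)
  let act' : MulAction (L ≃ₐ[ℚ] L) S := Disc.actRt hPne
  have hqL : ((q : ℤ) : L) ≠ 0 := by exact_mod_cast hq0
  have hx0 : ∀ x : S, x.1 ≠ 0 := fun x => qw_root_ne_zero hm h1 x.2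
  have hsym : ∀ β ∈ roots (qw (q : ℤ) h) L, ((q : ℤ) : L) / β ∈ roots (qw (q : ℤ) h) L := by
    intro β hβ
    have h2 := qw_root_ne_zero hm h1 hβ
    rw [mem_qw hm hPne (div_ne_zero hqL h2), div_div_cancel₀ hqL, add_comm]
    exact (mem_qw hm hPne h2).1 hβ
  let ι : S → S := fun x => ⟨((q : ℤ) : L) / x.1, hsym x.1 x.2⟩
  have hι : ∀ x : S, ι (ι x) = x := by
    intro x
    apply Subtype.ext
    show ((q : ℤ) : L) / (((q : ℤ) : L) / x.1) = x.1
    rw [div_div_cancel₀ hqL]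
  have hcomm : ∀ (g : L ≃ₐ[ℚ] L) (x : S), g • ι x = ι (g • x) := by
    intro g x
    apply Subtype.ext
    show g (((q : ℤ) : L) / x.1) = ((q : ℤ) : L) / g x.1
    rw [map_div₀, map_intCast]
  have htr : ∀ x y : S, ∃ g : L ≃ₐ[ℚ] L, g • x = y := by
    intro x y
    obtain ⟨σ, hσ⟩ := exists_conj h1 x y
    exact ⟨σ, Subtype.ext hσ⟩
  have hcore : ∀ σ ∈ H, InCore ι σ := by
    intro σ hσ x
    have hx := hx0 x
    have h2 : aeval (x.1 + ((q : ℤ) : L) / x.1) h = 0 := (mem_qw hm hPne hx).1 x.2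
    have h3 : σ (x.1 + ((q : ℤ) : L) / x.1) = x.1 + ((q : ℤ) : L) / x.1 := by
      refine hfixA σ hσ _ ((hmemA _).1 (hKF ?_))
      refine IntermediateField.subset_adjoin ℚ _ ?_
      show aeval (algebraMap L ℂ (x.1 + ((q : ℤ) : L) / x.1)) h = 0
      have h4 := hom_eval₂ h (algebraMap ℤ L) (algebraMap L ℂ) (x.1 + ((q : ℤ) : L) / x.1)
      rw [aeval_def] at h2 ⊢
      rw [h2, map_zero] at h4
      rw [h4]
      congr 1
    rw [map_add, map_div₀, map_intCast] at h3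
    have hy : σ x.1 ≠ 0 := (map_ne_zero σ).2 hx
    have h4 : (σ x.1 - x.1) * (σ x.1 - ((q : ℤ) : L) / x.1) = 0 := by
      field_simp at h3 ⊢
      linear_combination h3
    rcases mul_eq_zero.1 h4 with h5 | h5
    · exact Or.inl (Subtype.ext (sub_eq_zero.1 h5))
    · exact Or.inr (Subtype.ext (sub_eq_zero.1 h5))
  have hmove : ∃ σ ∈ H, ∃ x : S, σ • x ≠ x := by
    by_contra hcon
    push Not at hcon
    apply hLF
    rw [splitF, IntermediateField.adjoin_le_iff]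
    intro z hz
    have hz' : z ∈ crt (weil (q : ℤ) h) := by
      rw [crt, Multiset.mem_toFinset, mem_roots (hfm.map _).ne_zero, IsRoot.def, eval_map]
      have hz0 : aeval z (weil (q : ℤ) h) = 0 := hz
      rw [aeval_def] at hz0
      rw [← hz0]
      congr 1
    rw [hroots] at hz'
    obtain ⟨β, hβ, rfl⟩ := Finset.mem_image.1 hz'
    exact (hmemA β).2 (hfixA' β fun σ hσ => congrArg Subtype.val (hcon σ hσ ⟨β, hβ⟩))
  intro z hz
  rw [hroots] at hz
  obtain ⟨β₀, hβ₀, rfl⟩ := Finset.mem_image.1 hz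
  let x₀ : S := ⟨β₀, hβ₀⟩
  obtain ⟨τ, hτH, hτx⟩ : ∃ τ ∈ H, τ • x₀ = ι x₀ := by
    obtain ⟨σ, hσ, y, hy⟩ := hmove
    have hσy : σ • y = ι y := (hcore σ hσ y).resolve_left hy
    obtain ⟨b, hb⟩ := htr y x₀
    refine ⟨b * σ * b⁻¹, hnor.conj_mem _ hσ b, ?_⟩
    have hb' : b⁻¹ • x₀ = y := by rw [← hb, inv_smul_smul]
    rw [mul_smul, mul_smul, hb', hσy, hcomm, hb]
  have hτβ : τ β₀ = ((q : ℤ) : L) / β₀ := congrArg Subtype.val hτx
  have hβ0 : β₀ ≠ 0 := hx0 ⟨β₀, hβ₀⟩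
  have hτβ' : τ (((q : ℤ) : L) / β₀) = β₀ := by
    rw [map_div₀, map_intCast, hτβ, div_div_cancel₀ hqL]
  have hinv1 : τ⁻¹ β₀ = ((q : ℤ) : L) / β₀ := by
    apply τ.injective
    rw [hτβ']
    exact τ.apply_symm_apply β₀
  have hinv2 : τ⁻¹ (((q : ℤ) : L) / β₀) = β₀ := by
    apply τ.injective
    rw [hτβ]
    exact τ.apply_symm_apply _
  set w : L := ∏ b ∈ roots (qw (q : ℤ) h) L, b ^ n (algebraMap L ℂ b) with hw
  have hw0 : w ≠ 0 := prod_ne_zero_iff.2 fun β hβ => zpow_ne_zero _ (qw_root_ne_zero hm h1 hβ)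
  have hτw : τ w = ∏ β ∈ roots (qw (q : ℤ) h) L, β ^ n (algebraMap L ℂ (τ⁻¹ β)) := by
    rw [hw, map_prod]
    refine prod_bij' (fun β _ => τ β) (fun β _ => τ⁻¹ β) (fun β hβ => stab_roots hPne τ hβ)
      (fun β hβ => stab_roots hPne τ⁻¹ hβ) (fun β _ => τ.symm_apply_apply β)
      (fun β _ => τ.apply_symm_apply β) fun β _ => ?_
    have h2 : τ⁻¹ (τ β) = β := τ.symm_apply_apply β
    rw [h2, map_zpow₀]
  have hτwN : (τ w) ^ N = w ^ N := by
    rw [← map_pow]
    exact hfixA τ hτH _ ((hmemA _).1 hrel)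
  -- the new exponents
  let inv : ℂ → L := Function.invFun (algebraMap L ℂ)
  have hinv : ∀ β : L, inv (algebraMap L ℂ β) = β := fun β =>
    Function.leftInverse_invFun hinj β
  let n' : ℂ → ℤ := fun z => n (algebraMap L ℂ (τ⁻¹ (inv z))) - n z
  have hn' : ∀ β : L, n' (algebraMap L ℂ β) =
      n (algebraMap L ℂ (τ⁻¹ β)) - n (algebraMap L ℂ β) := by
    intro β
    show n (algebraMap L ℂ (τ⁻¹ (inv (algebraMap L ℂ β)))) - n (algebraMap L ℂ β) = _
    rw [hinv]
  have hrel' : (∏ z ∈ crt (weil (q : ℤ) h), z ^ n' z) ^ N = 1 := by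
    rw [hroots, hprod, ← map_pow]
    have h2 : ∏ b ∈ roots (qw (q : ℤ) h) L, b ^ n' (algebraMap L ℂ b) = τ w / w := by
      rw [hτw, hw, ← prod_div_distrib]
      refine prod_congr rfl fun β hβ => ?_
      rw [hn', zpow_sub₀ (qw_root_ne_zero hm h1 hβ)]
    rw [h2, div_pow, hτwN, div_self (pow_ne_zero _ hw0), map_one]
  have hz' : algebraMap L ℂ β₀ ∈ crt (weil (q : ℤ) h) := by
    rw [hroots]; exact mem_image_of_mem _ hβ₀
  have h4 := R0 n' N hN hrel' _ hz'
  have hqC : (q : ℂ) / algebraMap L ℂ β₀ = algebraMap L ℂ (((q : ℤ) : L) / β₀) := by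
    rw [map_div₀, map_intCast]
    norm_cast
  rw [hqC, hn', hn', hinv1, hinv2] at h4
  rw [hqC]
  omega

/-- Relations over any Galois number field `F` such that `F K` does not contain `L`. -/
theorem sign_relF (q : ℕ) (h : ℤ[X]) (hq : 0 < q) (hm : h.Monic) (hirr : Irreducible (weil (q : ℤ) h))
    (R0 : ∀ (n : ℂ → ℤ) (N : ℕ), N ≠ 0 → (∏ z ∈ crt (weil (q : ℤ) h), z ^ n z) ^ N = 1 →
      ∀ z ∈ crt (weil (q : ℤ) h), n z = n (q / z))
    (f : ℤ[X]) (hf : f ≠ 0) (hLF : ¬ splitF (weil (q : ℤ) h) ≤ splitF (f * h))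
    (n : ℂ → ℤ) (N : ℕ) (hN : N ≠ 0)
    (hrel : (∏ z ∈ crt (weil (q : ℤ) h), z ^ n z) ^ N ∈ splitF f) :
    ∀ z ∈ crt (weil (q : ℤ) h), n z = n (q / z) := by
  have h1 : splitF f ≤ splitF (f * h) := by
    refine IntermediateField.adjoin.mono ℚ _ _ fun z hz => ?_
    show aeval z (f * h) = 0
    rw [map_mul, show aeval z f = 0 from hz, zero_mul]
  have h2 : splitF h ≤ splitF (f * h) := by
    refine IntermediateField.adjoin.mono ℚ _ _ fun z hz => ?_
    show aeval z (f * h) = 0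
    rw [map_mul, show aeval z h = 0 from hz, mul_zero]
  exact sign_rel_aux q h hq hm hirr R0 (f * h) (mul_ne_zero hf hm.ne_zero) h2 hLF n N hN (h1 hrel)

end Pool.Agent.Helper19.YV
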