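import Pool.Agent.Helper86.YV.SignG
import Pool.Agent.Helper14.YV.Conv

/-!
# YV: the criterion for relations over a number field, as an equivalence
-/

set_option autoImplicit false

open Polynomial Finset

namespace Pool.Agent.Helper19.YV

open Pool.Agent.Helper19.AAR (splitF crt)
open Pool.Agent.Helper19.Sign (qw weil weil_monic eval_weil weil_map)

theorem sq_ne (q : ℕ) (h : ℤ[X]) (hq : 0 < q) (hm : h.Monic) (hirr : Irreducible (weil (q : ℤ) h))
    (z : ℂ) (hz : z ∈ crt (weil (q : ℤ) h)) : z ^ 2 ≠ q := by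
  intro hzq
  have hfm := weil_monic (q : ℤ) h hm
  have h1 : Irreducible (qw (q : ℤ) h) :=
    (hfm.1.irreducible_iff_irreducible_map_fraction_map (K := ℚ)).1 hirr
  have hqm : (qw (q : ℤ) h).Monic := hfm.1.map _
  have hqd : (qw (q : ℤ) h).natDegree = 2 * h.natDegree := by
    rw [qw, hfm.1.natDegree_map, hfm.2]
  rw [crt, Multiset.mem_toFinset, mem_roots (hfm.1.map _).ne_zero, IsRoot.def, eval_map] at hz
  have hroot : aeval z (qw (q : ℤ) h) = 0 := by
    rw [qw, aeval_def, eval₂_map, ← hz]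
    congr 1
  have hmin : minpoly ℚ z = qw (q : ℤ) h :=
    (minpoly.eq_of_irreducible_of_monic h1 hroot hqm).symm
  have hdvd : qw (q : ℤ) h ∣ X ^ 2 - C (q : ℚ) := by
    rw [← hmin]
    refine minpoly.dvd ℚ z ?_
    rw [map_sub, map_pow, aeval_X, aeval_C, hzq]
    simp
  have hle : (qw (q : ℤ) h).natDegree ≤ 2 :=
    (natDegree_le_of_dvd hdvd (X_pow_sub_C_ne_zero (by norm_num) _)).trans
      natDegree_X_pow_sub_C.le
  have hpos : 0 < (qw (q : ℤ) h).natDegree := h1.natDegree_pos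
  have hg : h.natDegree = 1 := by omega
  have heq : qw (q : ℤ) h = X ^ 2 - C (q : ℚ) :=
    (eq_of_monic_of_dvd_of_natDegree_le hqm (monic_X_pow_sub_C (q : ℚ) two_ne_zero) hdvd
      (by rw [natDegree_X_pow_sub_C, hqd, hg])).symm
  have hz0 : z ≠ 0 := by
    intro h0
    rw [h0] at hzq
    have : (q : ℂ) = 0 := by rw [← hzq]; norm_num
    exact hq.ne' (by exact_mod_cast this)
  -- the value at `x ≠ 0`
  have hmapd : (h.map (Int.castRingHom ℂ)).natDegree = h.natDegree := hm.natDegree_map _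
  have hval : ∀ x : ℂ, x ≠ 0 → x ^ 2 = q →
      eval (x + (q : ℂ) / x) (h.map (Int.castRingHom ℂ)) = 0 := by
    intro x hx hxq
    have e1 : eval x ((weil (q : ℤ) h).map (Int.castRingHom ℂ)) = 0 := by
      have e2 : aeval x (qw (q : ℤ) h) = 0 := by
        rw [heq, map_sub, map_pow, aeval_X, aeval_C, hxq]
        simp
      rw [qw, aeval_def, eval₂_map] at e2
      rw [eval_map, ← e2]
      congr 1
    rw [weil_map (Int.castRingHom ℂ) (q : ℤ) h hmapd, eval_weil _ _ _ hx] at e1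
    rcases mul_eq_zero.1 e1 with e3 | e3
    · exact absurd e3 (pow_ne_zero _ hx)
    · simpa using e3
  have hA := hval z hz0 hzq
  have hB := hval (-z) (neg_ne_zero.2 hz0) (by rw [neg_sq]; exact hzq)
  have hh : h.map (Int.castRingHom ℂ) = X + C ((h.coeff 0 : ℤ) : ℂ) := by
    have e1 := (hm.map (Int.castRingHom ℂ)).eq_X_add_C (by rw [hmapd, hg])
    rw [e1, coeff_map]
    rfl
  rw [hh, eval_add, eval_X, eval_C] at hA hB
  have hqz : (q : ℂ) / z = z := by rw [← hzq]; field_simp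
  have hqz' : (q : ℂ) / (-z) = -z := by rw [div_neg, hqz]
  rw [hqz] at hA
  rw [hqz'] at hB
  apply hz0
  linear_combination (hA - hB) / 4

/-- The criterion, as an equivalence. -/
theorem sign_iff (q : ℕ) (h : ℤ[X]) (hq : 0 < q) (hm : h.Monic) (hirr : Irreducible (weil (q : ℤ) h))
    (R0 : ∀ (n : ℂ → ℤ) (N : ℕ), N ≠ 0 → (∏ z ∈ crt (weil (q : ℤ) h), z ^ n z) ^ N = 1 →
      ∀ z ∈ crt (weil (q : ℤ) h), n z = n (q / z))
    (f : ℤ[X]) (hf : f ≠ 0) (z : ℂ) (hz : z ∈ crt (weil (q : ℤ) h)) :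
    (∀ (n : ℂ → ℤ) (N : ℕ), N ≠ 0 → (∏ w ∈ crt (weil (q : ℤ) h), w ^ n w) ^ N ∈ splitF f →
      n z = n (q / z)) ↔ z ∉ splitF f ⊔ IntermediateField.adjoin ℚ {z + (q : ℂ) / z} := by
  constructor
  · intro hall hzF
    obtain ⟨n, N, hN, hrel, hne⟩ := Pool.Agent.Helper14.YV.conv q h hq hm hirr f hf z hz
      (sq_ne q h hq hm hirr z hz) hzF
    exact hne (hall n N hN hrel)
  · intro hzF n N hN hrel
    exact Pool.Agent.Helper86.YV.sign_relG q h hq hm hirr R0 f hf n N hN hrel z hz hzF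

end Pool.Agent.Helper19.YV
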