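import Pool.Agent.Helper19.YV.Main
import Pool.Agent.Helper19.YV.Exo
import Pool.Agent.Helper86.YV.Good
import Pool.Agent.Helper84.YV.Lift
import Pool.Agent.Helper83.YV.NotLef
import Pool.Agent.Helper19.XV.Upper

/-!
# YV: both clauses, for all fields which do not contain the roots
-/

set_option autoImplicit false

open Polynomial

namespace Pool.Agent.Helper19.YV

open Pool.Agent.Helper84.AA
open Pool.Agent.Helper83.YV (RelLefschetzF)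
open Pool.Agent.Helper86.YV (GoodF goodF_odd)
open Pool.Agent.Helper19.EX (Exotic)
open Pool.Agent.Helper84.EXO (vv)
open Pool.Agent.Helper19.XV (fin_T)

theorem good_upper : ∃ d : ℝ, 0 < d ∧ ∃ G : ℕ, ∀ q : ℕ, 16 ≤ q → ∀ p : ℕ, p.Prime →
    ∀ (k m : ℕ), G ≤ m → ∀ B : ℝ, 1 ≤ B → B ≤ (m : ℝ) ^ (4 / 5 : ℝ) → (k : ℝ) ≤ (m : ℝ) ^ B →
      ∀ g : Fin k → ℕ, (∀ i, m ≤ g i ∧ (g i : ℝ) ≤ (m : ℝ) ^ B) →
      ∀ S : Fin k → Set ℤ[X], (∀ i, {h ∈ traceSet q (g i) | ¬ (p : ℤ) ∣ h.coeff 0} ⊆ S i ∧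
        S i ⊆ traceSet q (g i)) →
      (({h : Fin k → ℤ[X] | (∀ i, h i ∈ S i) ∧ ¬ GoodF q h}.ncard : ℕ) : ℝ) ≤
        (k : ℝ) * (q : ℝ) ^ (-(d * m / B)) *
        (({h : Fin k → ℤ[X] | ∀ i, h i ∈ S i}.ncard : ℕ) : ℝ) :=
  almost_uniformY_of (Gd := fun q _ h => GoodF q h)
    (fun _ _ hq h hm hd hirr hl => goodF_odd hq h hm hd hirr hl)
    (Pool.Agent.Helper86.XU.one_bigU_of Pool.Agent.Helper86.XU.res_boundU
      Pool.Agent.Helper86.XU.delta_boundU)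

theorem lefschetz_upper : ∃ d : ℝ, 0 < d ∧ ∃ G : ℕ, ∀ q : ℕ, 16 ≤ q → ∀ p : ℕ, p.Prime →
    ∀ (k m : ℕ), G ≤ m → ∀ B : ℝ, 1 ≤ B → B ≤ (m : ℝ) ^ (4 / 5 : ℝ) → (k : ℝ) ≤ (m : ℝ) ^ B →
      ∀ g : Fin k → ℕ, (∀ i, m ≤ g i ∧ (g i : ℝ) ≤ (m : ℝ) ^ B) →
      ∀ S : Fin k → Set ℤ[X], (∀ i, {h ∈ traceSet q (g i) | ¬ (p : ℤ) ∣ h.coeff 0} ⊆ S i ∧
        S i ⊆ traceSet q (g i)) →
      (({h : Fin k → ℤ[X] | (∀ i, h i ∈ S i) ∧ ¬ RelLefschetzF q h}.ncard : ℕ) : ℝ) ≤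
        (k : ℝ) * (q : ℝ) ^ (-(d * m / B)) *
        (({h : Fin k → ℤ[X] | ∀ i, h i ∈ S i}.ncard : ℕ) : ℝ) := by
  obtain ⟨d, hd, G, hG⟩ := good_upper
  refine ⟨d, hd, max G 2, fun q hq p hp k m hm B hB1 hB2 hk g hg S hS => ?_⟩
  have hm1 : G ≤ m := le_trans (le_max_left _ _) hm
  have hm2 : 2 ≤ m := le_trans (le_max_right _ _) hm
  refine le_trans ?_ (hG q hq p hp k m hm1 B hB1 hB2 hk g hg S hS)
  have hsub : {h : Fin k → ℤ[X] | (∀ i, h i ∈ S i) ∧ ¬ RelLefschetzF q h} ⊆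
      {h : Fin k → ℤ[X] | (∀ i, h i ∈ S i) ∧ ¬ GoodF q h} := by
    rintro h ⟨hh, hn⟩
    refine ⟨hh, fun hgood => hn (Pool.Agent.Helper84.YV.relLefschetzF_of (by omega) h
      (fun i => ((hS i).2 (hh i)).1) (fun i => ?_) hgood)⟩
    rw [((hS i).2 (hh i)).2.1]
    exact le_trans hm2 (hg i).1
  exact_mod_cast Set.ncard_le_ncard hsub (fin_T (fun i => (hS i).2) _)

theorem exotic_lower : ∃ G : ℕ, ∀ q : ℕ, 16 ≤ q → ∀ p : ℕ, p.Prime → p ∣ q →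
    ∀ (k : ℕ) (g : Fin k → ℕ) (i : Fin k), G ≤ g i → ∀ S : Fin k → Set ℤ[X],
      (∀ j, {h ∈ traceSet q (g j) | ¬ (p : ℤ) ∣ h.coeff 0} ⊆ S j ∧ S j ⊆ traceSet q (g j)) →
      (({h : Fin k → ℤ[X] | ∀ j, h j ∈ S j}.ncard : ℕ) : ℝ) ≤ (q : ℝ) ^ (8 * g i) *
      (({h : Fin k → ℤ[X] | (∀ j, h j ∈ S j) ∧
        ¬ GoodF q h ∧ Exotic q (h i)}.ncard : ℕ) : ℝ) := by
  obtain ⟨G, hG⟩ := Pool.Agent.Helper86.XV.share_T
  refine ⟨max G 1, fun q hq p hp hpq k g i hi S hS =>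
    (hG q hq p hp hpq k g i ((le_max_left _ _).trans hi) S hS).trans ?_⟩
  refine mul_le_mul_of_nonneg_left ?_ (by positivity)
  have hsub : {h : Fin k → ℤ[X] | (∀ j, h j ∈ S j) ∧
        ∃ u, IsTrace q (g i - 4) u ∧ h i = vv q * u} ⊆
      {h : Fin k → ℤ[X] | (∀ j, h j ∈ S j) ∧ ¬ GoodF q h ∧ Exotic q (h i)} := by
    rintro h ⟨hh, u, hu, hi'⟩
    have he : Exotic q (h i) := by
      rw [hi']
      exact Pool.Agent.Helper84.EXO.exotic_vv (by omega) hu.1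
    refine ⟨hh, not_goodF_of_exotic ((hS i).2 (hh i)).1 he ?_, he⟩
    rw [((hS i).2 (hh i)).2.1]
    exact (le_max_right _ _).trans hi
  exact_mod_cast Set.ncard_le_ncard hsub (fin_T (fun i => (hS i).2) _)

theorem lefschetz_lower : ∃ G : ℕ, ∀ q : ℕ, 16 ≤ q → ∀ p : ℕ, p.Prime → p ∣ q →
    ∀ (k : ℕ) (g : Fin k → ℕ) (i : Fin k), G ≤ g i → ∀ S : Fin k → Set ℤ[X],
      (∀ j, {h ∈ traceSet q (g j) | ¬ (p : ℤ) ∣ h.coeff 0} ⊆ S j ∧ S j ⊆ traceSet q (g j)) →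
      (({h : Fin k → ℤ[X] | ∀ j, h j ∈ S j}.ncard : ℕ) : ℝ) ≤ (q : ℝ) ^ (8 * g i) *
      (({h : Fin k → ℤ[X] | (∀ j, h j ∈ S j) ∧ ¬ RelLefschetzF q h}.ncard : ℕ) : ℝ) := by
  obtain ⟨G, hG⟩ := Pool.Agent.Helper86.XV.share_T
  refine ⟨G, fun q hq p hp hpq k g i hi S hS => (hG q hq p hp hpq k g i hi S hS).trans ?_⟩
  refine mul_le_mul_of_nonneg_left ?_ (by positivity)
  have hsub : {h : Fin k → ℤ[X] | (∀ j, h j ∈ S j) ∧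
        ∃ u, IsTrace q (g i - 4) u ∧ h i = vv q * u} ⊆
      {h : Fin k → ℤ[X] | (∀ j, h j ∈ S j) ∧ ¬ RelLefschetzF q h} := by
    rintro h ⟨hh, u, hu, hi'⟩
    exact ⟨hh, Pool.Agent.Helper83.YV.not_lefschetzF_vv (by omega)
      (fun j => ((hS j).2 (hh j)).1) i hi'⟩
  exact_mod_cast Set.ncard_le_ncard hsub (fin_T (fun i => (hS i).2) _)

end Pool.Agent.Helper19.YV
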